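import Pool.Agent.Helper65.LG.Defs

/-! Package L5 of the board LG: few bad integers. -/

set_option autoImplicit false

namespace Pool.Agent.Helper22.LG

open Finset Filter Topology Pool.Agent.Helper65.LG

theorem path_mem (h1 : S_step1) {G : GMap} {C : Finset (ℕ × ℕ)} (hC : IsClass G C) {B₀ : ℕ × ℕ}
    (hB : B₀ ∈ C) {x : ℤ} (hx : x ∈ cls G B₀) (l : ℕ) :
    Y G B₀ x l ∈ C ∧ (T G)^[l] x ∈ cls G (Y G B₀ x l) := by
  induction l with
  | zero => exact ⟨hB, hx⟩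
  | succ l ih =>
    obtain ⟨h2, h3⟩ := ih
    obtain ⟨h4, h5⟩ := hC.state _ h2
    obtain ⟨h6, h7⟩ := (h1 G _ h4 h5).2.1 _ h3
    refine ⟨hC.closed _ h2 _ h6, ?_⟩
    rw [Function.iterate_succ_apply']
    exact h7

theorem var_step {C : Finset (ℕ × ℕ)} {p δ : ℕ × ℕ → ℝ} {m c : ℝ} (hp : ∀ B ∈ C, 0 ≤ p B)
    (hs : ∑ B ∈ C, p B = 1) (h0 : ∑ B ∈ C, p B * δ B = 0) (hc : ∀ B ∈ C, δ B ^ 2 ≤ c) :
    ∑ B ∈ C, p B * (m + δ B) ^ 2 ≤ m ^ 2 + c := by
  have h1 : ∑ B ∈ C, p B * (m + δ B) ^ 2 =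
      m ^ 2 * ∑ B ∈ C, p B + 2 * m * ∑ B ∈ C, p B * δ B + ∑ B ∈ C, p B * δ B ^ 2 := by
    rw [mul_sum, mul_sum, ← sum_add_distrib, ← sum_add_distrib]
    exact sum_congr rfl fun B _ => by ring
  rw [h1, hs, h0]
  have h2 : ∑ B ∈ C, p B * δ B ^ 2 ≤ ∑ B ∈ C, p B * c :=
    sum_le_sum fun B hB => mul_le_mul_of_nonneg_left (hc B hB) (hp B hB)
  rw [← sum_mul, hs] at h2
  linarith

theorem P_nonneg (G : GMap) (B B' : ℕ × ℕ) : 0 ≤ P G B B' := by
  classical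
  unfold P
  split_ifs
  · positivity
  · exact le_rfl

/-- sum of absolute values -/
noncomputable def bd (C : Finset (ℕ × ℕ)) (φ : ℕ × ℕ → ℝ) : ℝ := ∑ B ∈ C, |φ B|

theorem bd_nonneg (C : Finset (ℕ × ℕ)) (φ : ℕ × ℕ → ℝ) : 0 ≤ bd C φ :=
  sum_nonneg fun _ _ => abs_nonneg _

theorem le_bd {C : Finset (ℕ × ℕ)} (φ : ℕ × ℕ → ℝ) {B : ℕ × ℕ} (hB : B ∈ C) : |φ B| ≤ bd C φ :=
  single_le_sum (f := fun B => |φ B|) (fun _ _ => abs_nonneg _) hB

/-- bound for the increments -/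
noncomputable def inc (C : Finset (ℕ × ℕ)) (ρ f g : ℕ × ℕ → ℝ) : ℝ :=
  (bd C f + |mean C ρ f| + 2 * bd C g) ^ 2

/-- one of the two terms -/
theorem term_step {G : GMap} {C : Finset (ℕ × ℕ)} (h2 : S_step2) (hC : IsClass G C)
    {ρ f g : ℕ × ℕ → ℝ} {c : ℝ} (hc : inc C ρ f g ≤ c)
    (hg : ∀ B ∈ C, g B - ∑ B' ∈ C, P G B B' * g B' = f B - mean C ρ f)
    {n l : ℕ} (hl : l < n) (w g0 : ℝ) {B : ℕ × ℕ} (hB : B ∈ C) :
    ∑ B' ∈ C, P G B B' * ((w + f B - ((l + 1 : ℕ) : ℝ) * mean C ρ f + g B' - g0) ^ 2 +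
      c * ((n - (l + 1) : ℕ) : ℝ)) ≤
      (w - l * mean C ρ f + g B - g0) ^ 2 + c * ((n - l : ℕ) : ℝ) := by
  have hs : ∑ B' ∈ C, P G B B' = 1 :=
    h2 G B (hC.state B hB).1 (hC.state B hB).2 C fun B' h => hC.closed B hB B' h
  have h0 : ∑ B' ∈ C, P G B B' * (f B - mean C ρ f + g B' - g B) = 0 := by
    have e : ∀ B' ∈ C, P G B B' * (f B - mean C ρ f + g B' - g B) =
        P G B B' * (f B - mean C ρ f - g B) + P G B B' * g B' := fun B' _ => by ring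
    rw [sum_congr rfl e, sum_add_distrib, ← sum_mul, hs]
    linarith [hg B hB]
  have hd : ∀ B' ∈ C, (f B - mean C ρ f + g B' - g B) ^ 2 ≤ c := by
    intro B' hB'
    refine le_trans ?_ hc
    unfold inc
    rw [← sq_abs]
    refine pow_le_pow_left₀ (abs_nonneg _) ?_ 2
    have k1 := le_bd f hB
    have k2 := le_bd g hB
    have k3 := le_bd g hB'
    calc |f B - mean C ρ f + g B' - g B| ≤ |f B - mean C ρ f + g B'| + |g B| := abs_sub _ _
      _ ≤ |f B - mean C ρ f| + |g B'| + |g B| := by gcongr; exact abs_add_le _ _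
      _ ≤ |f B| + |mean C ρ f| + |g B'| + |g B| := by gcongr; exact abs_sub _ _
      _ ≤ _ := by linarith
  have h3 := var_step (m := w - l * mean C ρ f + g B - g0) (fun B' _ => P_nonneg G B B') hs h0 hd
  have e : ∀ B' ∈ C, P G B B' * ((w + f B - ((l + 1 : ℕ) : ℝ) * mean C ρ f + g B' - g0) ^ 2 +
      c * ((n - (l + 1) : ℕ) : ℝ)) =
      P G B B' * ((w - l * mean C ρ f + g B - g0) + (f B - mean C ρ f + g B' - g B)) ^ 2 +
        P G B B' * (c * ((n - (l + 1) : ℕ) : ℝ)) := by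
    intro B' _
    push_cast
    ring
  rw [sum_congr rfl e, sum_add_distrib, ← sum_mul, hs]
  have h4 : ((n - l : ℕ) : ℝ) = ((n - (l + 1) : ℕ) : ℝ) + 1 := by
    have : n - l = (n - (l + 1)) + 1 := by omega
    rw [this]
    push_cast
    ring
  rw [h4]
  linarith

/-- Package L5. -/
theorem tail (h1 : S_step1) (h2 : S_step2) (h3 : S_poisson) (h4 : S_count) : S_tail := by
  classical
  intro G C ρ hC hρ
  obtain ⟨g₁, hg₁⟩ := h3 G C ρ (f1 G) hC hρ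
  obtain ⟨g₂, hg₂⟩ := h3 G C ρ (f2 G) hC hρ
  set μ₁ := mean C ρ (f1 G) with hμ₁
  set μ₂ := mean C ρ (f2 G) with hμ₂
  set c : ℝ := inc C ρ (f1 G) g₁ + inc C ρ (f2 G) g₂ with hc
  have hi1 : 0 ≤ inc C ρ (f1 G) g₁ := sq_nonneg _
  have hi2 : 0 ≤ inc C ρ (f2 G) g₂ := sq_nonneg _
  have hc0 : 0 ≤ c := add_nonneg hi1 hi2
  set ks : ℕ := ∑ B ∈ C, B.2 with hks
  have hksB : ∀ B ∈ C, B.2 ≤ ks := fun B hB => single_le_sum (f := fun B : ℕ × ℕ => B.2)
    (fun _ _ => Nat.zero_le _) hB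
  have hb1 := bd_nonneg C g₁
  have hb2 := bd_nonneg C g₂
  have hd : 2 ≤ G.d := G.hd
  have hdR : (2 : ℝ) ≤ G.d := by exact_mod_cast hd
  refine ⟨1 + 4 * bd C g₁ + 4 * bd C g₂ + (G.d : ℝ) * (G.d * ks) + 24 * c, by positivity, ?_⟩
  set K : ℝ := 1 + 4 * bd C g₁ + 4 * bd C g₂ + (G.d : ℝ) * (G.d * ks) + 24 * c with hK
  have hks0 : (0 : ℝ) ≤ (G.d : ℝ) * (G.d * ks) := by positivity
  intro X n A hA hX hn B₀ hB₀
  have hA1 : 1 ≤ A := by linarith
  have hAg1 : 4 * bd C g₁ ≤ A := by linarith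
  have hAg2 : 4 * bd C g₂ ≤ A := by linarith
  have hKd : (G.d : ℝ) * (G.d * ks) ≤ K := by linarith
  have hK0 : 0 < K := by linarith
  have hA2 : 0 < (A / 2) ^ 2 := by positivity
  have hst := hC.state B₀ hB₀
  have key := h4 G C (fun a => if a = 1 then f1 G else f2 G) X n
    (fun l w _ => A < |w 1 - l * μ₁| ∨ A < |w 2 - l * μ₂|)
    (fun l w B => ((w 1 - l * μ₁ + g₁ B - g₁ B₀) ^ 2 + c * ((n - l : ℕ) : ℝ)) / (A / 2) ^ 2 +
      ((w 2 - l * μ₂ + g₂ B - g₂ B₀) ^ 2 + c * ((n - l : ℕ) : ℝ)) / (A / 2) ^ 2) B₀ hC hB₀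
    (fun l w B => by positivity) ?_ ?_ ?_ ?_
  · -- conclusion
    have e0 : (((0 : ℝ) - ((0 : ℕ) : ℝ) * μ₁ + g₁ B₀ - g₁ B₀) ^ 2 + c * ((n - 0 : ℕ) : ℝ)) / (A / 2) ^ 2 +
      (((0 : ℝ) - ((0 : ℕ) : ℝ) * μ₂ + g₂ B₀ - g₂ B₀) ^ 2 + c * ((n - 0 : ℕ) : ℝ)) / (A / 2) ^ 2 =
        8 * c * n / A ^ 2 := by
      rw [Nat.sub_zero]
      have : A ≠ 0 := by positivity
      field_simp
      push_cast
      ring
    simp only [e0] at key
    have hq : 3 * (X : ℝ) / (G.d * B₀.2) ≤ 3 * X := by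
      refine div_le_self (by positivity) ?_
      have : (1 : ℝ) ≤ B₀.2 := by exact_mod_cast hst.1
      nlinarith
    calc _ ≤ _ := ?_
      _ ≤ 3 * (X : ℝ) / (G.d * B₀.2) * (8 * c * n / A ^ 2) := key
      _ ≤ 3 * (X : ℝ) * (8 * c * n / A ^ 2) := mul_le_mul_of_nonneg_right hq (by positivity)
      _ = (24 * c) * X * n / A ^ 2 := by ring
      _ ≤ K * X * n / A ^ 2 := by
        refine div_le_div_of_nonneg_right ?_ (by positivity)
        have : 24 * c ≤ K := by linarith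
        gcongr
    norm_cast
  · -- bad
    rintro l w B hB hbad
    have t1 : 0 ≤ ((w 1 - l * μ₁ + g₁ B - g₁ B₀) ^ 2 + c * ((n - l : ℕ) : ℝ)) / (A / 2) ^ 2 := by
      positivity
    have t2 : 0 ≤ ((w 2 - l * μ₂ + g₂ B - g₂ B₀) ^ 2 + c * ((n - l : ℕ) : ℝ)) / (A / 2) ^ 2 := by
      positivity
    have aux : ∀ (u : ℝ) (g : ℕ × ℕ → ℝ), 4 * bd C g ≤ A → A < |u| →
        1 ≤ ((u + g B - g B₀) ^ 2 + c * ((n - l : ℕ) : ℝ)) / (A / 2) ^ 2 := by
      intro u g hg hu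
      rw [le_div_iff₀ hA2, one_mul]
      have k1 := le_bd g hB
      have k2 := le_bd g hB₀
      have k3 : |u| ≤ |u + g B - g B₀| + |g B| + |g B₀| := by
        have : u = (u + g B - g B₀) - g B + g B₀ := by ring
        calc |u| = |(u + g B - g B₀) - g B + g B₀| := by rw [← this]
          _ ≤ |(u + g B - g B₀) - g B| + |g B₀| := abs_add_le _ _
          _ ≤ _ := by gcongr; exact abs_sub _ _
      have k4 : A / 2 ≤ |u + g B - g B₀| := by linarith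
      have k5 : (A / 2) ^ 2 ≤ (u + g B - g B₀) ^ 2 := by
        rw [← sq_abs (u + g B - g B₀)]
        exact pow_le_pow_left₀ (by positivity) k4 2
      have k6 : 0 ≤ c * ((n - l : ℕ) : ℝ) := by positivity
      linarith
    rcases hbad with h | h
    · have := aux _ g₁ hAg1 h
      linarith
    · have := aux _ g₂ hAg2 h
      linarith
  · -- one step
    intro l hl w B hB _
    have k1 := term_step h2 hC (c := c) (by linarith) hg₁ hl (w 1) (g₁ B₀) hB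
    have k2 := term_step h2 hC (c := c) (by linarith) hg₂ hl (w 2) (g₂ B₀) hB
    rw [← hμ₁] at k1
    rw [← hμ₂] at k2
    simp only [if_true, OfNat.ofNat_ne_one, if_false]
    rw [← add_div, le_div_iff₀ hA2, sum_mul]
    refine le_trans (le_of_eq ?_) (add_le_add k1 k2)
    rw [← sum_add_distrib]
    refine sum_congr rfl fun B' _ => ?_
    field_simp
  · -- size
    have k1 : (G.d : ℝ) * B₀.2 ≤ (G.d : ℝ) * (G.d * ks) := by
      have : (B₀.2 : ℝ) ≤ ks := by exact_mod_cast hksB B₀ hB₀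
      have : (ks : ℝ) ≤ G.d * ks := by
        have : (0 : ℝ) ≤ ks := by positivity
        nlinarith
      gcongr
      linarith
    have k2 : ((G.d * B₀.2 : ℕ) : ℝ) ≤ X := by
      push_cast
      linarith
    exact_mod_cast k2
  · -- not bad
    intro x hx l hl hb
    have hb1 := hb l le_rfl
    simp only [not_or, not_lt] at hb1
    have hb2 := hb1.2
    simp only [OfNat.ofNat_ne_one, if_false] at hb2
    have k1 : S G (f2 G) B₀ x l ≤ l * μ₂ + A := by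
      have := (abs_le.1 hb2).2
      linarith
    have k2 := (path_mem h1 hC hB₀ hx l).1
    have k3 : ((Y G B₀ x l).2 : ℝ) ≤ ks := by exact_mod_cast hksB _ k2
    have k4 := hn l hl.le
    refine le_trans ?_ k4
    have k5 : Real.exp (S G (f2 G) B₀ x l) ≤ Real.exp (l * μ₂ + A) := Real.exp_le_exp.2 k1
    push_cast
    calc (G.d : ℝ) * (G.d * (Y G B₀ x l).2 * Real.exp (S G (f2 G) B₀ x l)) =
        (G.d : ℝ) * (G.d * (Y G B₀ x l).2) * Real.exp (S G (f2 G) B₀ x l) := by ring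
      _ ≤ (G.d : ℝ) * (G.d * ks) * Real.exp (l * μ₂ + A) := by gcongr
      _ ≤ K * Real.exp (l * μ₂ + A) := by gcongr

end Pool.Agent.Helper22.LG
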